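import Pool.Agent.H70.AH.Many

/-!
# Hosts without a fixed tournament: embedding the cube
-/

set_option autoImplicit false

namespace Pool.Agent.H70.AH

open Finset Classical

/-- cleaned sets, from the top layer downwards -/
noncomputable def cl {V : Type} (T : V → V → Prop) (F : ℕ → Finset V) (d : ℕ) : ℕ → Finset V
  | 0 => F d
  | k + 1 => (F (d - (k + 1))).filter fun x => (inN T (cl T F d k) x).card * (2 * d) ≤
      (cl T F d k).card

theorem cl_sub {V : Type} (T : V → V → Prop) (F : ℕ → Finset V) (d : ℕ) (k : ℕ) :
    cl T F d k ⊆ F (d - k) := by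
  cases k with
  | zero => exact Subset.refl _
  | succ k => exact filter_subset _ _

theorem cl_card {V : Type} (T : V → V → Prop) (F : ℕ → Finset V) (d w : ℕ) (b : ℝ)
    (hd : 0 < d) (hcrd : ∀ i ≤ d, (F i).card = w)
    (harc : ∀ i < d, ((∑ a ∈ F (i + 1), (outN T (F i) a).card : ℕ) : ℝ) ≤ b)
    (hb : 8 * d * b ≤ (w : ℝ) ^ 2) (hw : 0 < w) : ∀ k ≤ d, w ≤ 2 * (cl T F d k).card := by
  intro k
  induction k with
  | zero =>
    intro _
    show w ≤ 2 * (F d).card
    rw [hcrd d le_rfl]
    omega
  | succ k ih =>
    intro hk
    have ih' := ih (by omega)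
    set i := d - (k + 1) with hi
    have hi1 : d - k = i + 1 := by omega
    have hid : i < d := by omega
    set C := cl T F d k with hC
    set Good := (F i).filter (fun x => (inN T C x).card * (2 * d) ≤ C.card) with hGood
    set Bad := (F i).filter (fun x => ¬ (inN T C x).card * (2 * d) ≤ C.card) with hBad
    have hcl : cl T F d (k + 1) = Good := rfl
    rw [hcl]
    have hsum : Good.card + Bad.card = w := by
      rw [← hcrd i hid.le]
      exact card_filter_add_card_filter_not _
    have h1 : Bad.card * C.card ≤ ∑ x ∈ Bad, (inN T C x).card * (2 * d) := by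
      rw [← smul_eq_mul]
      exact card_nsmul_le_sum _ _ _ fun x hx => (not_le.1 (mem_filter.1 hx).2).le
    have h2 : ∑ x ∈ Bad, (inN T C x).card * (2 * d) ≤
        (∑ a ∈ F (i + 1), (outN T (F i) a).card) * (2 * d) := by
      rw [← sum_mul]
      refine Nat.mul_le_mul_right _ ?_
      calc ∑ x ∈ Bad, (inN T C x).card ≤ ∑ x ∈ F i, (inN T C x).card :=
            sum_le_sum_of_subset (filter_subset _ _)
        _ = ∑ a ∈ C, (outN T (F i) a).card := (dbl T C (F i)).symm
        _ ≤ ∑ a ∈ F (i + 1), (outN T (F i) a).card := by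
            refine sum_le_sum_of_subset ?_
            rw [← hi1]
            exact cl_sub T F d k
    have h3 : ((Bad.card * C.card : ℕ) : ℝ) ≤ b * (2 * d) := by
      have h4 : ((Bad.card * C.card : ℕ) : ℝ) ≤
          (((∑ a ∈ F (i + 1), (outN T (F i) a).card) * (2 * d) : ℕ) : ℝ) := by
        exact_mod_cast h1.trans h2
      refine h4.trans ?_
      rw [Nat.cast_mul]
      push_cast
      have := harc i hid
      push_cast at this
      exact mul_le_mul_of_nonneg_right this (by positivity)
    have hCw : (w : ℝ) ≤ 2 * C.card := by exact_mod_cast ih'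
    have hwR : (0 : ℝ) < w := by exact_mod_cast hw
    have h5 : (Bad.card : ℝ) * w ≤ (w : ℝ) ^ 2 / 2 := by
      have h6 : (Bad.card : ℝ) * w ≤ Bad.card * (2 * C.card) :=
        mul_le_mul_of_nonneg_left hCw (Nat.cast_nonneg _)
      push_cast at h3
      nlinarith
    have h7 : 2 * (Bad.card : ℝ) ≤ w := by
      have h8 : (2 * (Bad.card : ℝ)) * w ≤ w * w := by nlinarith
      exact le_of_mul_le_mul_right h8 hwR
    have h9 : 2 * Bad.card ≤ w := by exact_mod_cast h7
    omega

theorem embed_step {V : Type} (T : V → V → Prop) (hT : IsTour T) (F : ℕ → Finset V) (d w : ℕ)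
    (hd : 0 < d) (hdis : ∀ i j, i < j → j ≤ d → Disjoint (F i) (F j))
    (hcl : ∀ k ≤ d, w ≤ 2 * (cl T F d k).card) (hw : 4 * 2 ^ d ≤ w) : ∀ i ≤ d,
    ∃ f : Finset (Fin d) → V, (∀ S : Finset (Fin d), S.card ≤ i → f S ∈ cl T F d (d - S.card)) ∧
      (∀ (S : Finset (Fin d)) (a : Fin d), a ∉ S → S.card + 1 ≤ i → T (f S) (f (insert a S))) ∧
      (∀ S S' : Finset (Fin d), S.card = S'.card → S.card ≤ i → f S = f S' → S = S') := by
  intro i
  induction i with
  | zero =>
    intro _
    have h1 : 0 < (cl T F d d).card := by
      have := hcl d le_rfl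
      have h2 : 0 < 2 ^ d := by positivity
      omega
    obtain ⟨z, hz⟩ := card_pos.1 h1
    refine ⟨fun _ => z, ?_, ?_, ?_⟩
    · intro S hS
      have : S.card = 0 := by omega
      rw [this, Nat.sub_zero]
      exact hz
    · intro S a _ h
      omega
    · intro S S' h1 h2 _
      have h3 : S = ∅ := card_eq_zero.1 (by omega)
      have h4 : S' = ∅ := card_eq_zero.1 (by omega)
      rw [h3, h4]
  | succ i ih =>
    intro hi
    obtain ⟨f, hf1, hf2, hf3⟩ := ih (by omega)
    set W := cl T F d (d - (i + 1)) with hW
    have hWF : W ⊆ F (i + 1) := by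
      have := cl_sub T F d (d - (i + 1))
      have h2 : d - (d - (i + 1)) = i + 1 := by omega
      rwa [h2] at this
    have hWc : w ≤ 2 * W.card := hcl _ (by omega)
    -- degrees
    have hdeg : ∀ x ∈ cl T F d (d - i), (inN T W x).card * (2 * d) ≤ W.card := by
      intro x hx
      have h1 : d - i = (d - (i + 1)) + 1 := by omega
      rw [h1] at hx
      exact (mem_filter.1 hx).2
    have hxF : ∀ x ∈ cl T F d (d - i), x ∈ F i := by
      intro x hx
      have := cl_sub T F d (d - i) hx
      have h2 : d - (d - i) = i := by omega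
      rwa [h2] at this
    let K : {S : Finset (Fin d) // S.card = i + 1} → Finset V := fun S =>
      W.filter fun z => ∀ a ∈ S.1, T (f (S.1.erase a)) z
    have hK : ∀ S : {S : Finset (Fin d) // S.card = i + 1}, 2 ^ d ≤ (K S).card := by
      intro S
      have hcov : W ⊆ K S ∪ S.1.biUnion fun a => inN T W (f (S.1.erase a)) := by
        intro z hz
        rw [mem_union]
        by_cases h : ∀ a ∈ S.1, T (f (S.1.erase a)) z
        · left
          exact mem_filter.2 ⟨hz, h⟩
        · right
          push Not at h
          obtain ⟨a, ha, hna⟩ := h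
          rw [mem_biUnion]
          refine ⟨a, ha, mem_filter.2 ⟨hz, ?_⟩⟩
          have hce : (S.1.erase a).card = i := by
            rw [card_erase_of_mem ha, S.2]
            omega
          have h1 : f (S.1.erase a) ∈ cl T F d (d - i) := by
            have := hf1 (S.1.erase a) hce.le
            rwa [hce] at this
          have hne : z ≠ f (S.1.erase a) := by
            intro h0
            have h2 := hxF _ h1
            rw [← h0] at h2
            exact disjoint_left.1 (hdis i (i + 1) (Nat.lt_succ_self i) hi) h2 (hWF hz)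
          exact (hT.2 z _ hne).2 hna
      have h1 : W.card ≤ (K S).card + ∑ a ∈ S.1, (inN T W (f (S.1.erase a))).card :=
        (card_le_card hcov).trans ((card_union_le _ _).trans
          (Nat.add_le_add_left card_biUnion_le _))
      have h2 : (∑ a ∈ S.1, (inN T W (f (S.1.erase a))).card) * (2 * d) ≤ d * W.card := by
        rw [sum_mul]
        calc ∑ a ∈ S.1, (inN T W (f (S.1.erase a))).card * (2 * d) ≤ ∑ _a ∈ S.1, W.card := by
              refine sum_le_sum fun a ha => hdeg _ ?_
              have hce : (S.1.erase a).card = i := by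
                rw [card_erase_of_mem ha, S.2]
                omega
              have := hf1 (S.1.erase a) hce.le
              rwa [hce] at this
          _ = (i + 1) * W.card := by rw [sum_const, S.2, smul_eq_mul]
          _ ≤ d * W.card := Nat.mul_le_mul_right _ hi
      have h3 : 2 * ∑ a ∈ S.1, (inN T W (f (S.1.erase a))).card ≤ W.card := by
        have h4 : d * (2 * ∑ a ∈ S.1, (inN T W (f (S.1.erase a))).card) ≤ d * W.card := by
          calc d * (2 * ∑ a ∈ S.1, (inN T W (f (S.1.erase a))).card) =
              (∑ a ∈ S.1, (inN T W (f (S.1.erase a))).card) * (2 * d) := by ring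
            _ ≤ _ := h2
        exact Nat.le_of_mul_le_mul_left h4 hd
      omega
    have hHall : ∃ g : {S : Finset (Fin d) // S.card = i + 1} → V, Function.Injective g ∧
        ∀ S, g S ∈ K S := by
      rw [← all_card_le_biUnion_card_iff_exists_injective]
      intro s
      rcases s.eq_empty_or_nonempty with h0 | ⟨S, hS⟩
      · subst h0
        simp
      · calc s.card ≤ Fintype.card {S : Finset (Fin d) // S.card = i + 1} := card_le_univ s
          _ ≤ Fintype.card (Finset (Fin d)) := Fintype.card_subtype_le _
          _ = 2 ^ d := by rw [Fintype.card_finset, Fintype.card_fin]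
          _ ≤ (K S).card := hK S
          _ ≤ (s.biUnion K).card := card_le_card (subset_biUnion_of_mem K hS)
    obtain ⟨g, hg1, hg2⟩ := hHall
    refine ⟨fun S => if h : S.card = i + 1 then g ⟨S, h⟩ else f S, ?_, ?_, ?_⟩
    · intro S hS
      by_cases h : S.card = i + 1
      · simp only [dif_pos h]
        have := (mem_filter.1 (hg2 ⟨S, h⟩)).1
        rw [h]
        exact this
      · simp only [dif_neg h]
        exact hf1 S (by omega)
    · intro S a ha hS
      have hSn : ¬ S.card = i + 1 := by omega
      have hc : (insert a S).card = S.card + 1 := card_insert_of_notMem ha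
      simp only [dif_neg hSn]
      by_cases h : (insert a S).card = i + 1
      · simp only [dif_pos h]
        have := (mem_filter.1 (hg2 ⟨insert a S, h⟩)).2 a (mem_insert_self _ _)
        simp only at this
        rwa [erase_insert ha] at this
      · simp only [dif_neg h]
        exact hf2 S a ha (by omega)
    · intro S S' h1 h2 h3
      by_cases h : S.card = i + 1
      · have h' : S'.card = i + 1 := by omega
        simp only [dif_pos h, dif_pos h'] at h3
        have := hg1 h3
        exact congrArg Subtype.val this
      · have h' : ¬ S'.card = i + 1 := by omega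
        simp only [dif_neg h, dif_neg h'] at h3
        exact hf3 S S' h1 (by omega) h3

theorem embed {V : Type} (T : V → V → Prop) (hT : IsTour T) (F : ℕ → Finset V) (d w : ℕ) (b : ℝ)
    (hd : 0 < d) (hcrd : ∀ i ≤ d, (F i).card = w)
    (hdis : ∀ i j, i < j → j ≤ d → Disjoint (F i) (F j))
    (harc : ∀ i < d, ((∑ a ∈ F (i + 1), (outN T (F i) a).card : ℕ) : ℝ) ≤ b)
    (hb : 8 * d * b ≤ (w : ℝ) ^ 2) (hw : 4 * 2 ^ d ≤ w) :
    ∃ f : Finset (Fin d) → V, Function.Injective f ∧
      ∀ (S : Finset (Fin d)) (a : Fin d), a ∉ S → T (f S) (f (insert a S)) := by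
  have hw0 : 0 < w := by
    have : 0 < 2 ^ d := by positivity
    omega
  obtain ⟨f, hf1, hf2, hf3⟩ := embed_step T hT F d w hd hdis
    (cl_card T F d w b hd hcrd harc hb hw0) hw d le_rfl
  have hcard : ∀ S : Finset (Fin d), S.card ≤ d := by
    intro S
    have := card_le_univ S
    rwa [Fintype.card_fin] at this
  have hF : ∀ S : Finset (Fin d), f S ∈ F S.card := by
    intro S
    have h1 := cl_sub T F d (d - S.card) (hf1 S (hcard S))
    have h2 : d - (d - S.card) = S.card := by
      have := hcard S
      omega
    rwa [h2] at h1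
  refine ⟨f, ?_, ?_⟩
  · intro S S' h
    rcases lt_trichotomy S.card S'.card with h1 | h1 | h1
    · exact absurd (h ▸ hF S) (fun h0 => disjoint_left.1 (hdis _ _ h1 (hcard S')) h0 (hF S'))
    · exact hf3 S S' h1 (hcard S) h
    · exact absurd (h ▸ hF S) (fun h0 => disjoint_left.1 (hdis _ _ h1 (hcard S)) (hF S') h0)
  · intro S a ha
    refine hf2 S a ha ?_
    have h1 := hcard (insert a S)
    rwa [card_insert_of_notMem ha] at h1

end Pool.Agent.H70.AH
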