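import Pool.Agent.H70.AH.Embed

/-!
# Hosts without a fixed tournament: the theorem
-/

set_option autoImplicit false

namespace Pool.Agent.H70.AH

open Finset Classical

theorem num (d h s : ℕ) (hd : 1 ≤ d) (hh : 1 ≤ h) (hs : s = Nat.clog 2 (d + 1)) :
    (((h * (2 * h * (8 * d * 4 ^ s) ^ h)) ^ s * (4 * 2 ^ d) : ℕ) : ℝ) ≤
      (2 : ℝ) ^ ((d : ℝ) + 6 * h * (Real.logb 2 (d + 1) + 1) ^ 2) := by
  set l := Real.logb 2 ((d : ℝ) + 1) with hl
  have hdR : (1 : ℝ) ≤ d := by exact_mod_cast hd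
  have hhR : (1 : ℝ) ≤ h := by exact_mod_cast hh
  have hl1 : 1 ≤ l := by
    rw [hl, Real.le_logb_iff_rpow_le (by norm_num) (by linarith), Real.rpow_one]
    linarith
  have h2l : (2 : ℝ) ^ l = (d : ℝ) + 1 := Real.rpow_logb (by norm_num) (by norm_num) (by linarith)
  have hsl : (s : ℝ) ≤ l + 1 := by
    have h1 : 2 ^ (s - 1) < d + 1 := by
      rw [hs]
      exact Nat.pow_pred_clog_lt_self (by norm_num) (by omega)
    have hs1 : 1 ≤ s := by
      rw [hs]
      have := Nat.clog_pos (b := 2) (n := d + 1) (by norm_num) (by omega)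
      omega
    have h2 : (2 : ℝ) ^ ((s : ℝ) - 1) < (d : ℝ) + 1 := by
      have h3 : (2 : ℝ) ^ (s - 1) < (d : ℝ) + 1 := by exact_mod_cast h1
      have h4 : ((s - 1 : ℕ) : ℝ) = (s : ℝ) - 1 := by
        rw [Nat.cast_sub hs1]
        simp
      rw [← h4, Real.rpow_natCast]
      exact h3
    rw [← h2l] at h2
    have h5 := (Real.rpow_lt_rpow_left_iff (by norm_num : (1 : ℝ) < 2)).1 h2
    linarith
  have hs0 : (0 : ℝ) ≤ s := Nat.cast_nonneg s
  -- each factor as a power of two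
  have e1 : (h : ℝ) ≤ (2 : ℝ) ^ (h : ℝ) := by
    rw [Real.rpow_natCast]
    have := (Nat.lt_two_pow_self (n := h)).le
    exact_mod_cast this
  have e2 : (d : ℝ) ≤ (2 : ℝ) ^ l := by
    rw [h2l]
    linarith
  have e3 : (8 * d * 4 ^ s : ℝ) ≤ (2 : ℝ) ^ (3 + l + 2 * (l + 1)) := by
    have h4 : (4 : ℝ) ^ s ≤ (2 : ℝ) ^ (2 * (l + 1)) := by
      have h5 : (4 : ℝ) ^ s = (2 : ℝ) ^ (2 * (s : ℝ)) := by
        rw [Real.rpow_mul (by norm_num), Real.rpow_natCast]
        norm_num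
      rw [h5]
      exact Real.rpow_le_rpow_of_exponent_le (by norm_num) (by linarith)
    have h6 : (8 : ℝ) = (2 : ℝ) ^ (3 : ℝ) := by
      rw [show (3 : ℝ) = ((3 : ℕ) : ℝ) by norm_num, Real.rpow_natCast]
      norm_num
    rw [Real.rpow_add (by norm_num), Real.rpow_add (by norm_num), ← h6]
    exact mul_le_mul (mul_le_mul_of_nonneg_left e2 (by norm_num)) h4 (by positivity)
      (by positivity)
  have e4 : ((8 * d * 4 ^ s : ℝ)) ^ h ≤ (2 : ℝ) ^ ((3 + l + 2 * (l + 1)) * h) := by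
    rw [Real.rpow_mul (by norm_num), Real.rpow_natCast]
    exact pow_le_pow_left₀ (by positivity) e3 h
  have e5 : ((h : ℝ) * (2 * h * (8 * d * 4 ^ s) ^ h)) ≤
      (2 : ℝ) ^ (1 + 2 * h + (3 + l + 2 * (l + 1)) * h) := by
    rw [Real.rpow_add (by norm_num), Real.rpow_add (by norm_num), Real.rpow_one]
    have e6 : (2 : ℝ) ^ (2 * (h : ℝ)) = (2 : ℝ) ^ (h : ℝ) * (2 : ℝ) ^ (h : ℝ) := by
      rw [← Real.rpow_add (by norm_num)]
      congr 1
      ring
    rw [e6]
    calc (h : ℝ) * (2 * h * (8 * d * 4 ^ s) ^ h) = 2 * (h * h) * (8 * d * 4 ^ s) ^ h := by ring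
      _ ≤ 2 * ((2 : ℝ) ^ (h : ℝ) * (2 : ℝ) ^ (h : ℝ)) *
          (2 : ℝ) ^ ((3 + l + 2 * (l + 1)) * h) := by
        refine mul_le_mul ?_ e4 (by positivity) (by positivity)
        refine mul_le_mul_of_nonneg_left ?_ (by norm_num)
        exact mul_le_mul e1 e1 (by positivity) (by positivity)
  have e7 : ((h : ℝ) * (2 * h * (8 * d * 4 ^ s) ^ h)) ^ s ≤
      (2 : ℝ) ^ ((1 + 2 * h + (3 + l + 2 * (l + 1)) * h) * (l + 1)) := by
    calc ((h : ℝ) * (2 * h * (8 * d * 4 ^ s) ^ h)) ^ s ≤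
        ((2 : ℝ) ^ (1 + 2 * h + (3 + l + 2 * (l + 1)) * h)) ^ s :=
          pow_le_pow_left₀ (by positivity) e5 s
      _ = (2 : ℝ) ^ ((1 + 2 * h + (3 + l + 2 * (l + 1)) * h) * s) := by
          rw [Real.rpow_mul (by norm_num), Real.rpow_natCast]
      _ ≤ _ := by
          refine Real.rpow_le_rpow_of_exponent_le (by norm_num) ?_
          refine mul_le_mul_of_nonneg_left hsl ?_
          positivity
  have e8 : (4 * 2 ^ d : ℝ) = (2 : ℝ) ^ (2 + (d : ℝ)) := by
    rw [Real.rpow_add (by norm_num), Real.rpow_natCast]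
    norm_num
  push_cast
  rw [e8]
  calc ((h : ℝ) * (2 * h * (8 * d * 4 ^ s) ^ h)) ^ s * (2 : ℝ) ^ (2 + (d : ℝ))
      ≤ (2 : ℝ) ^ ((1 + 2 * h + (3 + l + 2 * (l + 1)) * h) * (l + 1)) *
        (2 : ℝ) ^ (2 + (d : ℝ)) := mul_le_mul_of_nonneg_right e7 (by positivity)
    _ = (2 : ℝ) ^ ((1 + 2 * h + (3 + l + 2 * (l + 1)) * h) * (l + 1) + (2 + (d : ℝ))) := by
        rw [← Real.rpow_add (by norm_num)]
    _ ≤ _ := by
        refine Real.rpow_le_rpow_of_exponent_le (by norm_num) ?_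
        have hA : 2 ≤ (h : ℝ) * ((l + 1) * (3 * l - 2)) := by
          have : 2 ≤ (l + 1) * (3 * l - 2) := by nlinarith
          nlinarith
        nlinarith

theorem main (d h : ℕ) (V : Type) [Fintype V] (T : V → V → Prop) (hT : IsTour T)
    (H : Fin h → Fin h → Prop) (hH : IsTour H)
    (hfree : ¬ ∃ f : Fin h → V, ∀ i j, H i j → T (f i) (f j))
    (hN : (2 : ℝ) ^ ((d : ℝ) + 6 * h * (Real.logb 2 (d + 1) + 1) ^ 2) ≤ Fintype.card V) :
    ∃ f : Finset (Fin d) → V, Function.Injective f ∧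
      ∀ (S : Finset (Fin d)) (a : Fin d), a ∉ S → T (f S) (f (insert a S)) := by
  have hcardpos : 0 < Fintype.card V := by
    have h1 : (0 : ℝ) < (2 : ℝ) ^ ((d : ℝ) + 6 * h * (Real.logb 2 (d + 1) + 1) ^ 2) := by positivity
    have h2 := h1.trans_le hN
    exact_mod_cast h2
  obtain ⟨v0⟩ := Fintype.card_pos_iff.1 hcardpos
  haveI : Inhabited V := ⟨v0⟩
  have hh : 1 ≤ h := by
    by_contra h0
    have h0' : h = 0 := by omega
    subst h0'
    exact hfree ⟨fun i => i.elim0, fun i => i.elim0⟩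
  rcases Nat.eq_zero_or_pos d with hd | hd
  · subst hd
    refine ⟨fun _ => v0, fun S S' _ => ?_, fun S a => a.elim0⟩
    ext a
    exact a.elim0
  · set s := Nat.clog 2 (d + 1) with hs
    have hd1 : d + 1 ≤ 2 ^ s := Nat.le_pow_clog (by norm_num) _
    have hnum := (num d h s hd hh hs).trans hN
    have hdR : (1 : ℝ) ≤ d := by exact_mod_cast hd
    set D : ℝ := 8 * d * 4 ^ s with hD
    have hD1 : 1 ≤ D := by
      have h4 : (1 : ℝ) ≤ 4 ^ s := one_le_pow₀ (by norm_num)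
      have : (1 : ℝ) ≤ 8 * d := by linarith
      calc (1 : ℝ) = 1 * 1 := by ring
        _ ≤ _ := mul_le_mul this h4 (by norm_num) (by linarith)
    have hD0 : 0 < D := by linarith
    obtain ⟨F, hF⟩ := str_exists T H hH hfree (1 / D) (by positivity)
      (by rw [div_le_one hD0]; exact hD1) (2 * h * (8 * d * 4 ^ s) ^ h) (by
        push_cast
        rw [← hD, one_div, inv_pow]
        have : D ^ h ≠ 0 := (pow_pos hD0 h).ne'
        field_simp
        rfl) (4 * 2 ^ d) (by positivity) s univ (by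
        rw [card_univ]
        exact_mod_cast hnum)
    refine embed T hT F d (4 * 2 ^ d) _ hd (fun i hi => hF.crd i (by omega))
      (fun i j hij hj => hF.dis i j hij (by omega))
      (fun i hi => hF.arc i (i + 1) (Nat.lt_succ_self i) (by omega)) ?_ le_rfl
    rw [hD]
    have h4 : (4 : ℝ) ^ s ≠ 0 := by positivity
    have hdne : (d : ℝ) ≠ 0 := by positivity
    refine le_of_eq ?_
    field_simp

end Pool.Agent.H70.AH
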