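import Pool.Agent.H70.AH.Struct

/-!
# Hosts without a fixed tournament: `2^s` sets, almost all arcs forward, by doubling
-/

set_option autoImplicit false

namespace Pool.Agent.H70.AH

open Finset Classical

/-- joining two families -/
def join {V : Type} (n : ℕ) (F G : ℕ → Finset V) : ℕ → Finset V :=
  fun i => if i < n then F i else G (i - n)

theorem str_join {V : Type} {T : V → V → Prop} {A B U : Finset V} {w : ℕ} {b b' : ℝ} {n : ℕ}
    {F G : ℕ → Finset V} (hF : Str T A w b n F) (hG : Str T B w b n G) (hA : A ⊆ U) (hB : B ⊆ U)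
    (hd : Disjoint A B) (hb : b ≤ b')
    (harc : ∀ i < n, ∀ j < n, ((∑ a ∈ G j, (outN T (F i) a).card : ℕ) : ℝ) ≤ b') :
    Str T U w b' (n + n) (join n F G) := by
  refine ⟨?_, ?_, ?_, ?_⟩
  · intro i hi
    by_cases h : i < n
    · simp only [join, if_pos h]
      exact (hF.sub i h).trans hA
    · simp only [join, if_neg h]
      exact (hG.sub (i - n) (by omega)).trans hB
  · intro i hi
    by_cases h : i < n
    · simp only [join, if_pos h]
      exact hF.crd i h
    · simp only [join, if_neg h]
      exact hG.crd (i - n) (by omega)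
  · intro i j hij hj
    by_cases h : i < n
    · by_cases h' : j < n
      · simp only [join, if_pos h, if_pos h']
        exact hF.dis i j hij h'
      · simp only [join, if_pos h, if_neg h']
        exact disjoint_of_subset_left (hF.sub i h)
          (disjoint_of_subset_right (hG.sub (j - n) (by omega)) hd)
    · have h' : ¬ j < n := by omega
      simp only [join, if_neg h, if_neg h']
      exact hG.dis _ _ (by omega) (by omega)
  · intro i j hij hj
    by_cases h : i < n
    · by_cases h' : j < n
      · simp only [join, if_pos h, if_pos h']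
        exact (hF.arc i j hij h').trans hb
      · simp only [join, if_pos h, if_neg h']
        exact harc i h (j - n) (by omega)
    · have h' : ¬ j < n := by omega
      simp only [join, if_neg h, if_neg h']
      exact (hG.arc _ _ (by omega) (by omega)).trans hb

theorem outN_mono {V : Type} (T : V → V → Prop) {B C : Finset V} (h : B ⊆ C) (a : V) :
    (outN T B a).card ≤ (outN T C a).card := card_le_card (filter_subset_filter _ h)

theorem inN_mono {V : Type} (T : V → V → Prop) {B C : Finset V} (h : B ⊆ C) (a : V) :
    (inN T B a).card ≤ (inN T C a).card := card_le_card (filter_subset_filter _ h)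

theorem dbl {V : Type} (T : V → V → Prop) (B C : Finset V) :
    ∑ a ∈ B, (outN T C a).card = ∑ c ∈ C, (inN T B c).card := by
  unfold outN inN
  exact sum_card_bipartiteAbove_eq_sum_card_bipartiteBelow (fun a c => T a c)

theorem str_exists {V : Type} [Fintype V] [Inhabited V] (T : V → V → Prop) {h : ℕ}
    (H : Fin h → Fin h → Prop) (hH : IsTour H)
    (hfree : ¬ ∃ f : Fin h → V, ∀ i j, H i j → T (f i) (f j))
    (ε : ℝ) (hε0 : 0 < ε) (hε1 : ε ≤ 1) (R : ℕ) (hR : (2 * h : ℝ) ≤ ε ^ h * R) (w : ℕ)
    (hw : 0 < w) : ∀ s : ℕ, ∀ U : Finset V, (h * R) ^ s * w ≤ U.card →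
    ∃ F, Str T U w (ε * 4 ^ s * (w : ℝ) ^ 2) (2 ^ s) F := by
  have hh : 0 < h := by
    by_contra h0
    have h0' : h = 0 := by omega
    subst h0'
    exact hfree ⟨fun i => i.elim0, fun i => i.elim0⟩
  have hhR : (0 : ℝ) < h := by exact_mod_cast hh
  have hR0 : 0 < R := by
    by_contra h0
    have h0' : R = 0 := by omega
    subst h0'
    simp at hR
    linarith
  intro s
  induction s with
  | zero =>
    intro U hU
    obtain ⟨Y, hY, hYc⟩ := exists_subset_card_eq (n := w) (s := U) (by simpa using hU)
    refine ⟨fun _ => Y, fun _ _ => hY, fun _ _ => hYc, ?_, ?_⟩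
    · intro i j hij hj
      simp at hj
      omega
    · intro i j hij hj
      simp at hj
      omega
  | succ s ih =>
    intro U hU
    set M : ℕ := (h * R) ^ s * w with hM
    have hM0 : 0 < M := by positivity
    have hMR : (0 : ℝ) < M := by exact_mod_cast hM0
    have hU' : h * (R * M) ≤ U.card := by
      calc h * (R * M) = (h * R) ^ (s + 1) * w := by rw [hM]; ring
        _ ≤ U.card := hU
    obtain ⟨X, hX, hXd⟩ := split U (R * M) h hU'
    have hXd' : ∀ i j : ℕ, i ≠ j → i < h → j < h → Disjoint (X i) (X j) := by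
      intro i j hij hi hj
      rcases lt_or_gt_of_ne hij with h1 | h1
      · exact hXd i j h1 hj
      · exact (hXd j i h1 hi).symm
    have hmR : (0 : ℝ) < ((R * M : ℕ) : ℝ) := by
      have : 0 < R * M := Nat.mul_pos hR0 hM0
      exact_mod_cast this
    rcases ehr T H hH ε hε0 hε1 (univ : Finset (Fin h)) ((R * M : ℕ) : ℝ) (fun i => X i) hmR
      (by
        intro i _
        rw [(hX i i.isLt).2]) with ⟨f, -, hf⟩ | ⟨i, j, -, -, hij, A, B, hA, hB, hAc, hBc, hdeg⟩
    · exact absurd ⟨f, fun i j => hf i (mem_univ _) j (mem_univ _)⟩ hfree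
    · rw [card_univ, Fintype.card_fin] at hAc hBc
      have hA2 : 2 * M ≤ A.card := by
        have h1 : (2 * h : ℝ) * M ≤ h * A.card := by
          calc (2 * h : ℝ) * M ≤ (ε ^ h * R) * M := mul_le_mul_of_nonneg_right hR hMR.le
            _ = ε ^ h * ((R * M : ℕ) : ℝ) := by push_cast; ring
            _ ≤ _ := hAc
        have h2 : (2 * M : ℝ) ≤ A.card := by
          have h3 : (h : ℝ) * (2 * M) ≤ h * A.card := by linarith
          exact le_of_mul_le_mul_left h3 hhR
        exact_mod_cast h2
      have hB2 : 2 * M ≤ B.card := by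
        have h1 : (2 * h : ℝ) * M ≤ h * B.card := by
          calc (2 * h : ℝ) * M ≤ (ε ^ h * R) * M := mul_le_mul_of_nonneg_right hR hMR.le
            _ = ε ^ h * ((R * M : ℕ) : ℝ) := by push_cast; ring
            _ ≤ _ := hBc
        have h2 : (2 * M : ℝ) ≤ B.card := by
          have h3 : (h : ℝ) * (2 * M) ≤ h * B.card := by linarith
          exact le_of_mul_le_mul_left h3 hhR
        exact_mod_cast h2
      have hAU : A ⊆ U := hA.trans (hX i i.isLt).1
      have hBU : B ⊆ U := hB.trans (hX j j.isLt).1
      have hAB : Disjoint A B := disjoint_of_subset_left hA (disjoint_of_subset_right hB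
        (hXd' i j (fun h0 => hij (Fin.ext h0)) i.isLt j.isLt))
      obtain ⟨FA, hFA⟩ := ih A (by omega)
      set n : ℕ := 2 ^ s with hn
      have hn0 : 0 < n := by positivity
      have hnw : 0 < n * w := Nat.mul_pos hn0 hw
      set p : ℕ := (B.card - M) / (n * w) + 1 with hp
      have hp1 : (B.card - M) / (n * w) * (n * w) ≤ B.card - M := Nat.div_mul_le_self _ _
      have hp2 : B.card - M < p * (n * w) := by
        have := Nat.lt_div_mul_add (a := B.card - M) hnw
        rw [hp, Nat.add_mul, one_mul]
        exact this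
      obtain ⟨G, hG, hGd⟩ := tile T w n M _ ih B p (by
        rw [hp, Nat.add_mul, one_mul]
        omega)
      have hBp : B.card ≤ 2 * (p * (n * w)) := by omega
      have hp0 : 0 < p := Nat.succ_pos _
      have h4s : ε * 4 ^ (s + 1) * (w : ℝ) ^ 2 = 4 * (ε * 4 ^ s * (w : ℝ) ^ 2) := by
        rw [pow_succ (4 : ℝ) s]
        ring
      have hb0 : 0 ≤ ε * 4 ^ s * (w : ℝ) ^ 2 := by positivity
      have hb : ε * 4 ^ s * (w : ℝ) ^ 2 ≤ ε * 4 ^ (s + 1) * (w : ℝ) ^ 2 := by
        rw [h4s]
        linarith
      have hbound : 2 * ε * (((un n FA).card : ℝ) * ((n * w : ℕ) : ℝ)) ≤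
          ε * 4 ^ (s + 1) * (w : ℝ) ^ 2 := by
        rw [un_card hFA]
        have hnR : ((n : ℕ) : ℝ) * n = 4 ^ s := by
          rw [hn]
          push_cast
          rw [← mul_pow]
          norm_num
        push_cast
        calc 2 * ε * ((n : ℝ) * w * (n * w)) = 2 * ε * ((n : ℝ) * n) * (w : ℝ) ^ 2 := by ring
          _ = 2 * ε * 4 ^ s * (w : ℝ) ^ 2 := by rw [hnR]
          _ = 2 * (ε * 4 ^ s * (w : ℝ) ^ 2) := by ring
          _ ≤ _ := by
            rw [h4s]
            linarith
      have h2s : 2 ^ (s + 1) = n + n := by rw [hn, pow_succ]; ring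
      rw [h2s]
      rcases hdeg with hdeg | hdeg
      · obtain ⟨k, hk, hkb⟩ := avg (un n FA) B (outN T) (by
          intro C a
          by_cases hC : C ⊆ B
          · left
            ext b
            simp only [outN, mem_filter]
            constructor
            · rintro ⟨h1, h2⟩
              exact ⟨h1, hC h1, h2⟩
            · rintro ⟨h1, -, h2⟩
              exact ⟨h1, h2⟩
          · exact Or.inr hC) ε (fun a ha => hdeg a (un_sub hFA ha)) p (n * w) hp0
          (fun k => un n (G k)) (fun k hk => un_sub (hG k hk)) hGd hBp hε0.le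
        refine ⟨join n (G k) FA, str_join (hG k hk) hFA hBU hAU hAB.symm hb ?_⟩
        intro i hi j hj
        refine le_trans ?_ (hkb.trans hbound)
        have h1 : ∑ a ∈ FA j, (outN T (G k i) a).card ≤
            ∑ a ∈ un n FA, (outN T (un n (G k)) a).card :=
          (sum_le_sum fun a _ => outN_mono T (sub_un (G k) hi) a).trans
            (sum_le_sum_of_subset (sub_un FA hj))
        exact_mod_cast h1
      · obtain ⟨k, hk, hkb⟩ := avg (un n FA) B (inN T) (by
          intro C a
          by_cases hC : C ⊆ B
          · left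
            ext b
            simp only [inN, mem_filter]
            constructor
            · rintro ⟨h1, h2⟩
              exact ⟨h1, hC h1, h2⟩
            · rintro ⟨h1, -, h2⟩
              exact ⟨h1, h2⟩
          · exact Or.inr hC) ε (fun a ha => hdeg a (un_sub hFA ha)) p (n * w) hp0
          (fun k => un n (G k)) (fun k hk => un_sub (hG k hk)) hGd hBp hε0.le
        refine ⟨join n FA (G k), str_join hFA (hG k hk) hAU hBU hAB hb ?_⟩
        intro i hi j hj
        refine le_trans ?_ (hkb.trans hbound)
        have h1 : ∑ a ∈ G k j, (outN T (FA i) a).card ≤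
            ∑ a ∈ un n FA, (inN T (un n (G k)) a).card := by
          rw [dbl]
          exact (sum_le_sum fun a _ => inN_mono T (sub_un (G k) hj) a).trans
            (sum_le_sum_of_subset (sub_un FA hi))
        exact_mod_cast h1

end Pool.Agent.H70.AH
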