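import Mathlib

/-!
# Hosts without a fixed tournament: the pair lemma

`ehr`: if a tournament has no copy of the tournament `H` with vertex `i` in `X i`, then two of the
sets contain large subsets `A`, `B` such that every vertex of `A` sends few arcs to `B`
(or receives few arcs from `B`).
-/

set_option autoImplicit false

namespace Pool.Agent.H70.AH

open Finset Classical

/-- tournament -/
def IsTour {V : Type} (T : V → V → Prop) : Prop :=
  (∀ a, ¬ T a a) ∧ ∀ a b, a ≠ b → (T a b ↔ ¬ T b a)

/-- out-neighbours in `B` -/
noncomputable def outN {V : Type} (T : V → V → Prop) (B : Finset V) (a : V) : Finset V :=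
  B.filter fun b => T a b

/-- in-neighbours in `B` -/
noncomputable def inN {V : Type} (T : V → V → Prop) (B : Finset V) (a : V) : Finset V :=
  B.filter fun b => T b a

/-- vertices `b` of `B` with `v b` oriented as `i0 j` -/
noncomputable def cons {V : Type} (T : V → V → Prop) {h : ℕ} (H : Fin h → Fin h → Prop)
    (i0 j : Fin h) (B : Finset V) (v : V) : Finset V :=
  if H i0 j then outN T B v else inN T B v

theorem cons_sub {V : Type} (T : V → V → Prop) {h : ℕ} (H : Fin h → Fin h → Prop)
    (i0 j : Fin h) (B : Finset V) (v : V) : cons T H i0 j B v ⊆ B := by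
  unfold cons outN inN
  split_ifs
  · exact filter_subset _ _
  · exact filter_subset _ _

theorem ehr {V : Type} [Fintype V] [Inhabited V] (T : V → V → Prop) {h : ℕ}
    (H : Fin h → Fin h → Prop) (hH : IsTour H) (ε : ℝ) (hε0 : 0 < ε) (hε1 : ε ≤ 1)
    (I : Finset (Fin h)) :
    ∀ (m : ℝ) (X : Fin h → Finset V), 0 < m → (∀ i ∈ I, m ≤ (X i).card) →
      (∃ f : Fin h → V, (∀ i ∈ I, f i ∈ X i) ∧ ∀ i ∈ I, ∀ j ∈ I, H i j → T (f i) (f j)) ∨
      (∃ i j : Fin h, i ∈ I ∧ j ∈ I ∧ i ≠ j ∧ ∃ A B : Finset V, A ⊆ X i ∧ B ⊆ X j ∧
        ε ^ I.card * m ≤ h * A.card ∧ ε ^ I.card * m ≤ h * B.card ∧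
        ((∀ a ∈ A, ((outN T B a).card : ℝ) ≤ ε * B.card) ∨
          (∀ a ∈ A, ((inN T B a).card : ℝ) ≤ ε * B.card))) := by
  induction I using Finset.induction_on with
  | empty =>
    intro m X _ _
    left
    exact ⟨fun _ => default, by simp, by simp⟩
  | insert i0 I' hi0 ih =>
    intro m X hm hX
    have hh : 1 ≤ h := by
      have := i0.isLt
      omega
    have hhR : (1 : ℝ) ≤ h := by exact_mod_cast hh
    have hX0 : m ≤ (X i0).card := hX i0 (mem_insert_self _ _)
    by_cases hcase : ∃ v ∈ X i0, ∀ j ∈ I', ε * (X j).card ≤ ((cons T H i0 j (X j) v).card : ℝ)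
    · obtain ⟨v, hv, hvj⟩ := hcase
      have hrec := ih (ε * m) (fun j => cons T H i0 j (X j) v) (by positivity) (by
        intro j hj
        have h1 := hX j (mem_insert_of_mem hj)
        have h2 := hvj j hj
        exact (mul_le_mul_of_nonneg_left h1 hε0.le).trans h2)
      rcases hrec with ⟨f, hf1, hf2⟩ | ⟨i, j, hi, hj, hij, A, B, hA, hB, hA2, hB2, hdeg⟩
      · left
        refine ⟨Function.update f i0 v, ?_, ?_⟩
        · intro i hi
          rw [mem_insert] at hi
          by_cases hii : i = i0
          · subst hii
            simpa using hv
          · rw [Function.update_of_ne hii]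
            exact cons_sub T H i0 i (X i) v (hf1 i (hi.resolve_left hii))
        · intro i hi j hj hHij
          rw [mem_insert] at hi hj
          by_cases hii : i = i0
          · by_cases hjj : j = i0
            · subst hii
              subst hjj
              exact absurd hHij (hH.1 _)
            · subst hii
              rw [Function.update_self, Function.update_of_ne hjj]
              have hm1 := hf1 j (hj.resolve_left hjj)
              simp only [cons, if_pos hHij, outN, mem_filter] at hm1
              exact hm1.2
          · by_cases hjj : j = i0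
            · subst hjj
              rw [Function.update_self, Function.update_of_ne hii]
              have hm1 := hf1 i (hi.resolve_left hii)
              have hn : ¬ H j i := (hH.2 i j hii).1 hHij
              simp only [cons, if_neg hn, inN, mem_filter] at hm1
              exact hm1.2
            · rw [Function.update_of_ne hii, Function.update_of_ne hjj]
              exact hf2 i (hi.resolve_left hii) j (hj.resolve_left hjj) hHij
      · right
        refine ⟨i, j, mem_insert_of_mem hi, mem_insert_of_mem hj, hij, A, B,
          hA.trans (cons_sub T H i0 i (X i) v), hB.trans (cons_sub T H i0 j (X j) v), ?_, ?_, hdeg⟩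
        · rw [card_insert_of_notMem hi0, pow_succ]
          calc ε ^ I'.card * ε * m = ε ^ I'.card * (ε * m) := by ring
            _ ≤ _ := hA2
        · rw [card_insert_of_notMem hi0, pow_succ]
          calc ε ^ I'.card * ε * m = ε ^ I'.card * (ε * m) := by ring
            _ ≤ _ := hB2
    · push Not at hcase
      right
      -- pigeonhole
      have hpow : ε ^ (insert i0 I').card ≤ 1 := pow_le_one₀ hε0.le hε1
      have hpow0 : 0 < ε ^ (insert i0 I').card := pow_pos hε0 _
      have hpig : ∃ j ∈ I', m ≤ h * (((X i0).filter fun v =>
          ((cons T H i0 j (X j) v).card : ℝ) < ε * (X j).card).card : ℝ) := by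
        by_contra hcon
        push Not at hcon
        have hcov : X i0 ⊆ I'.biUnion fun j => (X i0).filter fun v =>
            ((cons T H i0 j (X j) v).card : ℝ) < ε * (X j).card := by
          intro v hv
          obtain ⟨j, hj, hlt⟩ := hcase v hv
          rw [mem_biUnion]
          exact ⟨j, hj, mem_filter.2 ⟨hv, hlt⟩⟩
        have h1 : ((X i0).card : ℝ) ≤ ∑ j ∈ I', (((X i0).filter fun v =>
            ((cons T H i0 j (X j) v).card : ℝ) < ε * (X j).card).card : ℝ) := by
          have := (card_le_card hcov).trans card_biUnion_le
          exact_mod_cast this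
        have hne : I'.Nonempty := by
          by_contra hemp
          rw [not_nonempty_iff_eq_empty] at hemp
          rw [hemp] at h1
          simp only [sum_empty] at h1
          linarith
        have h2 : (h : ℝ) * ∑ j ∈ I', (((X i0).filter fun v =>
            ((cons T H i0 j (X j) v).card : ℝ) < ε * (X j).card).card : ℝ) < ∑ _j ∈ I', m := by
          rw [mul_sum]
          exact sum_lt_sum_of_nonempty hne fun j hj => hcon j hj
        rw [sum_const, nsmul_eq_mul] at h2
        have h3 : (I'.card : ℝ) ≤ h := by
          have := card_le_univ I'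
          rw [Fintype.card_fin] at this
          exact_mod_cast this
        have h4 : (h : ℝ) * (X i0).card < I'.card * m :=
          lt_of_le_of_lt (mul_le_mul_of_nonneg_left h1 (by linarith)) h2
        have h5 : (I'.card : ℝ) * m ≤ h * m := mul_le_mul_of_nonneg_right h3 hm.le
        have h6 : (h : ℝ) * m ≤ h * (X i0).card := mul_le_mul_of_nonneg_left hX0 (by linarith)
        linarith
      obtain ⟨j, hj, hA⟩ := hpig
      have hne : i0 ≠ j := fun h0 => hi0 (h0 ▸ hj)
      have hXj : m ≤ (X j).card := hX j (mem_insert_of_mem hj)
      refine ⟨i0, j, mem_insert_self _ _, mem_insert_of_mem hj, hne,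
        (X i0).filter (fun v => ((cons T H i0 j (X j) v).card : ℝ) < ε * (X j).card), X j,
        filter_subset _ _, Subset.refl _, ?_, ?_, ?_⟩
      · exact (mul_le_of_le_one_left hm.le hpow).trans hA
      · have h1 : (m : ℝ) ≤ h * (X j).card := by nlinarith
        exact (mul_le_of_le_one_left hm.le hpow).trans h1
      · by_cases hHij : H i0 j
        · left
          intro a ha
          have := (mem_filter.1 ha).2
          simp only [cons, if_pos hHij] at this
          exact this.le
        · right
          intro a ha
          have := (mem_filter.1 ha).2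
          simp only [cons, if_neg hHij] at this
          exact this.le

end Pool.Agent.H70.AH
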