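import Pool.Agent.H70.AH.Pair

/-!
# Hosts without a fixed tournament: many sets, almost all arcs forward
-/

set_option autoImplicit false

namespace Pool.Agent.H70.AH

open Finset Classical

/-- `n` disjoint `w`-subsets of `U` with at most `b` backward arcs between any two of them -/
structure Str {V : Type} (T : V → V → Prop) (U : Finset V) (w : ℕ) (b : ℝ) (n : ℕ)
    (F : ℕ → Finset V) : Prop where
  sub : ∀ i < n, F i ⊆ U
  crd : ∀ i < n, (F i).card = w
  dis : ∀ i j, i < j → j < n → Disjoint (F i) (F j)
  arc : ∀ i j, i < j → j < n → ((∑ a ∈ F j, (outN T (F i) a).card : ℕ) : ℝ) ≤ b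

theorem Str.mono {V : Type} {T : V → V → Prop} {U U' : Finset V} {w : ℕ} {b b' : ℝ} {n : ℕ}
    {F : ℕ → Finset V} (h : Str T U w b n F) (hU : U ⊆ U') (hb : b ≤ b') : Str T U' w b' n F :=
  ⟨fun i hi => (h.sub i hi).trans hU, h.crd, h.dis, fun i j hij hj => (h.arc i j hij hj).trans hb⟩

/-- union of a structure -/
noncomputable def un {V : Type} (n : ℕ) (F : ℕ → Finset V) : Finset V :=
  (range n).biUnion F

theorem un_sub {V : Type} {T : V → V → Prop} {U : Finset V} {w : ℕ} {b : ℝ} {n : ℕ}
    {F : ℕ → Finset V} (h : Str T U w b n F) : un n F ⊆ U := by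
  unfold un
  rw [biUnion_subset]
  intro i hi
  exact h.sub i (mem_range.1 hi)

theorem un_card {V : Type} {T : V → V → Prop} {U : Finset V} {w : ℕ} {b : ℝ} {n : ℕ}
    {F : ℕ → Finset V} (h : Str T U w b n F) : (un n F).card = n * w := by
  unfold un
  rw [card_biUnion]
  · rw [sum_congr rfl fun i hi => h.crd i (mem_range.1 hi)]
    simp
  · intro i hi j hj hij
    rw [Finset.mem_coe, mem_range] at hi hj
    show Disjoint (F i) (F j)
    rcases lt_or_gt_of_ne hij with h1 | h1
    · exact h.dis i j h1 hj
    · exact (h.dis j i h1 hi).symm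

theorem sub_un {V : Type} {n : ℕ} (F : ℕ → Finset V) {i : ℕ} (hi : i < n) : F i ⊆ un n F := by
  unfold un
  exact subset_biUnion_of_mem F (mem_range.2 hi)

theorem split {V : Type} (U : Finset V) (m : ℕ) : ∀ h : ℕ, h * m ≤ U.card →
    ∃ X : ℕ → Finset V, (∀ i < h, X i ⊆ U ∧ (X i).card = m) ∧
      ∀ i j, i < j → j < h → Disjoint (X i) (X j) := by
  intro h
  induction h with
  | zero => intro _; exact ⟨fun _ => ∅, by simp, by simp⟩
  | succ h ih =>
    intro hU
    rw [Nat.succ_mul] at hU
    obtain ⟨X, hX, hd⟩ := ih (by omega)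
    have hc : (un h X).card ≤ h * m := by
      unfold un
      refine card_biUnion_le.trans ?_
      rw [sum_congr rfl fun i hi => (hX i (mem_range.1 hi)).2]
      simp
    have h1 : m ≤ (U \ un h X).card := by
      have := le_card_sdiff (un h X) U
      omega
    obtain ⟨Y, hY, hYc⟩ := exists_subset_card_eq h1
    refine ⟨fun i => if i < h then X i else Y, ?_, ?_⟩
    · intro i hi
      by_cases hih : i < h
      · simp only [if_pos hih]
        exact hX i hih
      · simp only [if_neg hih]
        exact ⟨hY.trans sdiff_subset, hYc⟩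
    · intro i j hij hj
      have hi : i < h := by omega
      simp only [if_pos hi]
      by_cases hjh : j < h
      · simp only [if_pos hjh]
        exact hd i j hij hjh
      · simp only [if_neg hjh]
        exact disjoint_of_subset_left (sub_un X hi) (disjoint_of_subset_right hY disjoint_sdiff)

theorem tile {V : Type} (T : V → V → Prop) (w n M : ℕ) (b : ℝ)
    (hcl : ∀ U : Finset V, M ≤ U.card → ∃ F, Str T U w b n F) (B : Finset V) :
    ∀ p : ℕ, p * (n * w) + M ≤ B.card + n * w →
    ∃ G : ℕ → ℕ → Finset V, (∀ k < p, Str T B w b n (G k)) ∧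
      ∀ k l, k < l → l < p → Disjoint (un n (G k)) (un n (G l)) := by
  intro p
  induction p with
  | zero => intro _; exact ⟨fun _ _ => ∅, by simp, by simp⟩
  | succ p ih =>
    intro hp
    rw [Nat.succ_mul] at hp
    obtain ⟨G, hG, hd⟩ := ih (by omega)
    have hc : (un p (fun k => un n (G k))).card ≤ p * (n * w) := by
      refine (card_biUnion_le (s := range p) (t := fun k => un n (G k))).trans ?_
      rw [sum_congr rfl fun k hk => un_card (hG k (mem_range.1 hk))]
      simp
    have h1 : M ≤ (B \ un p (fun k => un n (G k))).card := by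
      have := le_card_sdiff (un p (fun k => un n (G k))) B
      omega
    obtain ⟨F, hF⟩ := hcl _ h1
    refine ⟨fun k => if k < p then G k else F, ?_, ?_⟩
    · intro k hk
      by_cases hkp : k < p
      · simp only [if_pos hkp]
        exact hG k hkp
      · simp only [if_neg hkp]
        exact hF.mono sdiff_subset le_rfl
    · intro k l hkl hl
      have hk : k < p := by omega
      simp only [if_pos hk]
      by_cases hlp : l < p
      · simp only [if_pos hlp]
        exact hd k l hkl hlp
      · simp only [if_neg hlp]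
        have h2 : un n (G k) ⊆ un p (fun k => un n (G k)) := sub_un (fun k => un n (G k)) hk
        exact disjoint_of_subset_left h2 (disjoint_of_subset_right (un_sub hF) disjoint_sdiff)

/-- averaging over the tiles: some tile receives few arcs -/
theorem avg {V : Type} (A B : Finset V) (N : Finset V → V → Finset V)
    (hN : ∀ (C : Finset V) (a : V), N C a = C.filter (fun b => b ∈ N B a) ∨ ¬ C ⊆ B)
    (ε : ℝ)
    (hdeg : ∀ a ∈ A, ((N B a).card : ℝ) ≤ ε * B.card) (p q : ℕ) (hp : 0 < p) (G : ℕ → Finset V)
    (hG : ∀ k < p, G k ⊆ B) (hd : ∀ k l, k < l → l < p → Disjoint (G k) (G l))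
    (hB : B.card ≤ 2 * (p * q)) (hε : 0 ≤ ε) :
    ∃ k < p, ((∑ a ∈ A, (N (G k) a).card : ℕ) : ℝ) ≤ 2 * ε * (A.card * q) := by
  by_contra hcon
  push Not at hcon
  have h1 : ∑ k ∈ range p, (2 * ε * (A.card * q) : ℝ) <
      ∑ k ∈ range p, ((∑ a ∈ A, (N (G k) a).card : ℕ) : ℝ) := by
    apply sum_lt_sum_of_nonempty
    · exact ⟨0, mem_range.2 hp⟩
    · intro k hk
      exact hcon k (mem_range.1 hk)
  have h2 : ∑ k ∈ range p, (∑ a ∈ A, (N (G k) a).card : ℕ) ≤ ∑ a ∈ A, (N B a).card := by
    rw [sum_comm]
    refine sum_le_sum fun a _ => ?_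
    rw [← card_biUnion]
    · refine card_le_card ?_
      rw [biUnion_subset]
      intro k hk b hb
      rcases hN (G k) a with h3 | h3
      · rw [h3, mem_filter] at hb
        exact hb.2
      · exact absurd (hG k (mem_range.1 hk)) h3
    · intro k hk l hl hkl
      rw [Finset.mem_coe, mem_range] at hk hl
      show Disjoint (N (G k) a) (N (G l) a)
      have hsub : ∀ k < p, N (G k) a ⊆ G k := by
        intro k hk
        rcases hN (G k) a with h3 | h3
        · rw [h3]
          exact filter_subset _ _
        · exact absurd (hG k hk) h3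
      rcases lt_or_gt_of_ne hkl with h4 | h4
      · exact disjoint_of_subset_left (hsub k hk) (disjoint_of_subset_right (hsub l hl)
          (hd k l h4 hl))
      · exact disjoint_of_subset_left (hsub k hk) (disjoint_of_subset_right (hsub l hl)
          (hd l k h4 hk).symm)
  have h3 : ((∑ a ∈ A, (N B a).card : ℕ) : ℝ) ≤ A.card * (ε * B.card) := by
    push_cast
    calc ∑ a ∈ A, ((N B a).card : ℝ) ≤ ∑ _a ∈ A, (ε * B.card : ℝ) := sum_le_sum hdeg
      _ = _ := by rw [sum_const, nsmul_eq_mul]
  have h2' : ∑ k ∈ range p, ((∑ a ∈ A, (N (G k) a).card : ℕ) : ℝ) ≤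
      ((∑ a ∈ A, (N B a).card : ℕ) : ℝ) := by
    have := h2
    exact_mod_cast this
  rw [sum_const, card_range, nsmul_eq_mul] at h1
  have h4 : (A.card : ℝ) * (ε * B.card) ≤ A.card * (ε * (2 * (p * q))) := by
    have : (B.card : ℝ) ≤ 2 * (p * q) := by exact_mod_cast hB
    gcongr
  have h5 : (p : ℝ) * (2 * ε * (A.card * q)) = A.card * (ε * (2 * (p * q))) := by ring
  linarith

end Pool.Agent.H70.AH
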